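import Mathlib

set_option autoImplicit false

/-!
Frankl's inequality for upper semimodular lattices with a short interval `[j, 1]` above a
join-irreducible `j`: basic lemmas.
-/

namespace Pool.Agent.H15.Fr

open Finset

variable {L : Type*} [Lattice L] [Fintype L]

/-- An element all of whose strict minorants are below `y` gives a cover of `y`. -/
lemma covBy_sup' [IsUpperModularLattice L] {c y : L} (hlow : ∀ z : L, z < c → z ≤ y)
    (hcy : ¬ c ≤ y) : y ⋖ y ⊔ c := by
  have hcov : y ⊓ c ⋖ c := by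
    refine ⟨lt_of_le_of_ne inf_le_right (fun h => hcy (h ▸ inf_le_left)), ?_⟩
    intro z h1 h2
    exact absurd (le_inf (hlow z h2) h2.le) (not_le_of_gt h1)
  exact covBy_sup_of_inf_covBy_right hcov

/-- Relative version inside `[j, 1]`. -/
lemma covBy_supM [IsUpperModularLattice L] {j c y : L} (hjy : j ≤ y) (hjc : j ≤ c)
    (hlow : ∀ z : L, j ≤ z → z < c → z ≤ y) (hcy : ¬ c ≤ y) : y ⋖ y ⊔ c := by
  have hcov : y ⊓ c ⋖ c := by
    refine ⟨lt_of_le_of_ne inf_le_right (fun h => hcy (h ▸ inf_le_left)), ?_⟩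
    intro z h1 h2
    exact absurd (le_inf (hlow z ((le_inf hjy hjc).trans h1.le) h2) h2.le) (not_le_of_gt h1)
  exact covBy_sup_of_inf_covBy_right hcov

/-- `γ` is join-irreducible in the interval `[j, 1]`. -/
def JM (j γ : L) : Prop := j < γ ∧ ∀ x y : L, j ≤ x → j ≤ y → x ⊔ y = γ → x = γ ∨ y = γ

lemma JM_of_covBy {j p : L} (h : j ⋖ p) : JM j p := by
  refine ⟨h.lt, ?_⟩
  intro x y hx hy hxy
  by_contra hne
  push Not at hne
  have hx' : x = j := by
    have hxp : x ≤ p := hxy ▸ le_sup_left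
    rcases h.eq_or_eq hx hxp with h1 | h1
    · exact h1
    · exact absurd h1 hne.1
  have hy' : y = j := by
    have hyp : y ≤ p := hxy ▸ le_sup_right
    rcases h.eq_or_eq hy hyp with h1 | h1
    · exact h1
    · exact absurd h1 hne.2
  rw [hx', hy', sup_idem] at hxy
  exact h.lt.ne hxy

/-- A minimal element of `[j, y]` not below `g` is join-irreducible in `[j, 1]`. -/
lemma exists_JM_min {j y g : L} (hjy : j ≤ y) (hjg : j ≤ g) (h : ¬ y ≤ g) :
    ∃ δ : L, JM j δ ∧ δ ≤ y ∧ ¬ δ ≤ g ∧ ∀ t : L, j ≤ t → t < δ → t ≤ g := by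
  classical
  obtain ⟨δ, hδ⟩ := (Set.toFinite {t : L | j ≤ t ∧ t ≤ y ∧ ¬ t ≤ g}).exists_minimal
    ⟨y, hjy, le_rfl, h⟩
  have key : ∀ t : L, j ≤ t → t < δ → t ≤ g := by
    intro t hjt ht
    by_contra htg
    exact absurd (hδ.le_of_le ⟨hjt, ht.le.trans hδ.prop.2.1, htg⟩ ht.le) (not_le_of_gt ht)
  refine ⟨δ, ⟨?_, ?_⟩, hδ.prop.2.1, hδ.prop.2.2, key⟩
  · refine lt_of_le_of_ne hδ.prop.1 ?_
    intro hjd
    exact hδ.prop.2.2 (hjd ▸ hjg)
  · intro x z hx hz hxz
    by_contra hne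
    push Not at hne
    have h1 : x < δ := lt_of_le_of_ne (hxz ▸ le_sup_left) hne.1
    have h2 : z < δ := lt_of_le_of_ne (hxz ▸ le_sup_right) hne.2
    exact hδ.prop.2.2 (hxz ▸ sup_le (key x hx h1) (key z hz h2))

/-- A join-irreducible element of `[j, 1]` is `j ⊔ d` with `d` join-irreducible in `L`. -/
lemma exists_lift {j δ : L} (hmax : ∀ k : L, SupIrred k → j ≤ k → k = j) (hδ : JM j δ) :
    ∃ d : L, SupIrred d ∧ d ⊔ j = δ ∧ ¬ j ≤ d ∧ ∀ z : L, z < d → z ⊔ j ≠ δ := by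
  classical
  obtain ⟨d, hd⟩ := (Set.toFinite {x : L | x ⊔ j = δ}).exists_minimal
    ⟨δ, sup_eq_left.2 hδ.1.le⟩
  have key : ∀ z : L, z < d → z ⊔ j ≠ δ := by
    intro z hz hzj
    exact absurd (hd.le_of_le hzj hz.le) (not_le_of_gt hz)
  have hdj : d ⊔ j = δ := hd.prop
  have hirr : SupIrred d := by
    refine ⟨?_, ?_⟩
    · intro hmin
      have hle : d ≤ j := (hmin inf_le_left).trans inf_le_right
      rw [sup_eq_right.2 hle] at hdj
      exact hδ.1.ne hdj
    · intro x y hxy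
      by_contra hne
      push Not at hne
      have hx : x < d := lt_of_le_of_ne (hxy ▸ le_sup_left) hne.1
      have hy : y < d := lt_of_le_of_ne (hxy ▸ le_sup_right) hne.2
      have h1 := key x hx
      have h2 := key y hy
      rcases hδ.2 (x ⊔ j) (y ⊔ j) le_sup_right le_sup_right (by
        rw [← hdj, ← hxy, sup_sup_sup_comm, sup_idem]) with h | h
      · exact h1 h
      · exact h2 h
  refine ⟨d, hirr, hdj, ?_, key⟩
  intro hjd
  have := hmax d hirr hjd
  rw [this, sup_idem] at hdj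
  exact hδ.1.ne hdj

/-- Lifts of covers of `j` have all strict minorants strictly below `j`. -/
lemma lift_low {j p d : L} (hp : j ⋖ p) (hjd : ¬ j ≤ d) (hdj : d ⊔ j = p)
    (hmin : ∀ z : L, z < d → z ⊔ j ≠ p) : ∀ z : L, z < d → z < j := by
  intro z hz
  have h1 : z ⊔ j ≤ p := hdj ▸ sup_le_sup_right hz.le j
  rcases hp.eq_or_eq le_sup_right h1 with h | h
  · refine lt_of_le_of_ne (sup_eq_right.1 h) ?_
    rintro rfl
    exact hjd hz.le
  · exact absurd h (hmin z hz)

/-- Step lemma. -/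
lemma step [IsUpperModularLattice L] {j x e : L} (hlow : ∀ z : L, z < e → z ≤ x)
    (hjx : ¬ j ≤ x) (he : ¬ e ⊔ j ≤ x ⊔ j) : ¬ j ≤ x ⊔ e := by
  intro hj
  have hex : ¬ e ≤ x := fun h => he (sup_le_sup_right h j)
  have hc := covBy_sup' hlow hex
  have h1 : x < x ⊔ j := lt_of_le_of_ne le_sup_left (fun h => hjx (h ▸ le_sup_right))
  have h2 : x ⊔ j ≤ x ⊔ e := sup_le le_sup_left hj
  rcases hc.eq_or_eq h1.le h2 with h | h
  · exact h1.ne h.symm
  · exact he (sup_le (h ▸ le_sup_right) le_sup_right)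

/-- The largest element strictly below a join-irreducible element. -/
lemma exists_pred {j : L} (hj : SupIrred j) : ∃ s : L, s < j ∧ ∀ z : L, z < j → z ≤ s := by
  classical
  have hne : ∃ z : L, z < j := by
    have h := hj.1
    rw [not_isMin_iff] at h
    exact h
  obtain ⟨s, hs⟩ := (Set.toFinite {z : L | z < j}).exists_maximal hne
  refine ⟨s, hs.prop, ?_⟩
  intro z hz
  have hsz : s ⊔ z < j := by
    refine lt_of_le_of_ne (sup_le (le_of_lt hs.prop) hz.le) ?_
    intro h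
    rcases hj.2 h with h | h
    · exact hs.prop.ne h
    · exact hz.ne h
  have := hs.le_of_ge hsz le_sup_left
  exact le_sup_right.trans this

/-- The same for `JM`. -/
lemma exists_predM {j γ : L} (hγ : JM j γ) :
    ∃ g : L, j ≤ g ∧ g < γ ∧ ∀ z : L, j ≤ z → z < γ → z ≤ g := by
  classical
  obtain ⟨s, hs⟩ := (Set.toFinite {z : L | j ≤ z ∧ z < γ}).exists_maximal ⟨j, le_rfl, hγ.1⟩
  refine ⟨s, hs.prop.1, hs.prop.2, ?_⟩
  intro z hjz hz
  have hsz : s ⊔ z < γ := by
    refine lt_of_le_of_ne (sup_le (le_of_lt hs.prop.2) hz.le) ?_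
    intro h
    rcases hγ.2 s z hs.prop.1 hjz h with h | h
    · exact hs.prop.2.ne h
    · exact hz.ne h
  have := hs.le_of_ge ⟨hjz.trans le_sup_right, hsz⟩ le_sup_left
  exact le_sup_right.trans this

end Pool.Agent.H15.Fr
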