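import Mathlib

set_option autoImplicit false

/-!
# Frankl's inequality for upper semimodular lattices whose join-irreducibles have height at most two

Let `L` be a finite upper semimodular lattice in which every join-irreducible element has height at
most `2` (so it is an atom, or the only nonzero element strictly below it is an atom).  Then some
join-irreducible `a` satisfies `2 |{x : a ≤ x}| ≤ |L|`.

Such lattices need not have a join-irreducible `b` for which `y ↦ b ⊔ y` maps the elements not above
`b` onto the elements above `b`.  The proof is an average over two independent elements of `L`.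

Let `T` be the set of join-irreducibles which are not atoms, and `s b` the atom below `b ∈ T`.
* (C1) `2 |{x : b ≤ x}| + |{x : ¬ s b ≤ x}| ≤ |L| + |Bad b|`, where `Bad b` is the set of all
  `x ≥ b` such that every `y ⋖ x` with `s b ≤ y` is above `b` (map `x ∉ Bad b` to such a `y`).
* For `x : L` let `f x` be the join of the atoms below `x`, and `I x` the set of all `b ∈ T` below `x`
  which are not below the join of `f x` and the earlier elements of `T` below `x` (in a fixed
  enumeration).
* (C2) for all `x` and `z`, `#{b ∈ I x : z ∈ Bad b} ≤ #{c ∈ I z : ¬ s c ≤ x}`.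
* (C3) summing (C2) over all pairs, `∑ q b |Bad b| ≤ ∑ q b |{x : ¬ s b ≤ x}|` with
  `q b = #{x : b ∈ I x}`.
-/

namespace Pool.Agent.H15.Fr.Height2

open Finset

variable {L : Type*} [Lattice L] [Fintype L]

set_option linter.unusedSectionVars false

/-- If `z` is not below `w`, some join-irreducible below `z` is not below `w`, and all elements
strictly below it are below `w`. -/
lemma exists_min {z w : L} (h : ¬ z ≤ w) :
    ∃ c : L, SupIrred c ∧ c ≤ z ∧ ¬ c ≤ w ∧ ∀ e : L, e < c → e ≤ w := by
  classical
  obtain ⟨c, hc⟩ := (Set.toFinite {c : L | c ≤ z ∧ ¬ c ≤ w}).exists_minimal ⟨z, le_rfl, h⟩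
  have key : ∀ e : L, e < c → e ≤ w := by
    intro e he
    by_contra hew
    exact absurd (hc.le_of_le ⟨he.le.trans hc.prop.1, hew⟩ he.le) (not_le_of_gt he)
  refine ⟨c, ⟨?_, ?_⟩, hc.prop.1, hc.prop.2, key⟩
  · intro hmin
    exact hc.prop.2 ((hmin inf_le_left).trans inf_le_right)
  · intro b d hbd
    by_contra hne
    push Not at hne
    have hb : b < c := lt_of_le_of_ne (hbd ▸ le_sup_left) hne.1
    have hd : d < c := lt_of_le_of_ne (hbd ▸ le_sup_right) hne.2
    exact hc.prop.2 (hbd ▸ sup_le (key b hb) (key d hd))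

/-- An element all of whose strict minorants are below `y` gives a cover of `y`. -/
lemma covBy_sup [IsUpperModularLattice L] {c y : L} (hlow : ∀ z : L, z < c → z ≤ y)
    (hcy : ¬ c ≤ y) : y ⋖ c ⊔ y := by
  have hcov : c ⊓ y ⋖ c := by
    refine ⟨lt_of_le_of_ne inf_le_left (fun h => hcy (h ▸ inf_le_right)), ?_⟩
    intro z h1 h2
    exact absurd (le_inf h2.le (hlow z h2)) (not_le_of_gt h1)
  exact covBy_sup_of_inf_covBy_left hcov

section Order

variable [OrderBot L]

/-- Exchange: elements which are independent over `f` and below the join of `f` and `k` elements,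
each of which raises every element by at most one step, are at most `k` in number. -/
lemma exchange (e : L → ℕ) (he : Function.Injective e) (B : Finset L)
    (hB : ∀ a ∈ B, ∀ h : L, a ≤ h ∨ h ⋖ a ⊔ h) :
    ∀ (A : Finset L) (f : L),
      (∀ b ∈ A, b ≤ f ⊔ B.sup id) →
      (∀ b ∈ A, ¬ b ≤ f ⊔ (A.filter (fun c => e c < e b)).sup id) → A.card ≤ B.card := by
  classical
  induction B using Finset.induction_on with
  | empty =>
    intro A f h1 h2
    rw [Finset.card_empty, Nat.le_zero, Finset.card_eq_zero]
    by_contra hne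
    obtain ⟨b, hb⟩ := Finset.nonempty_iff_ne_empty.2 hne
    refine h2 b hb ((h1 b hb).trans ?_)
    simp
  | insert a B haB ih =>
    intro A f h1 h2
    have ih' := ih (fun c hc => hB c (Finset.mem_insert_of_mem hc))
    -- the elements which stay independent over `f ⊔ a`
    set A' := A.filter (fun b => ¬ b ≤ (f ⊔ a) ⊔ (A.filter (fun c => e c < e b)).sup id) with hA'
    have hA'card : A'.card ≤ B.card := by
      refine ih' A' (f ⊔ a) ?_ ?_
      · intro b hb
        have := h1 b (Finset.mem_of_mem_filter b hb)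
        rw [Finset.sup_insert, id, ← sup_assoc] at this
        exact this
      · intro b hb hle
        have h3 := (Finset.mem_filter.1 hb).2
        refine h3 (hle.trans (sup_le_sup_left ?_ _))
        refine Finset.sup_mono ?_
        intro c hc
        rw [Finset.mem_filter] at hc ⊢
        exact ⟨Finset.mem_of_mem_filter c hc.1, hc.2⟩
    have hdiff : (A \ A').card ≤ 1 := by
      rw [Finset.card_le_one]
      -- two dropped elements are equal
      have key : ∀ b₁ ∈ A \ A', ∀ b₂ ∈ A \ A', ¬ e b₁ < e b₂ := by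
        intro b₁ hb₁ b₂ hb₂ hlt
        rw [Finset.mem_sdiff, hA', Finset.mem_filter, not_and, not_not] at hb₁ hb₂
        have k₁ := hb₁.2 hb₁.1
        have k₂ := hb₂.2 hb₂.1
        set h₁ := f ⊔ (A.filter (fun c => e c < e b₁)).sup id with hh₁
        set h₂ := f ⊔ (A.filter (fun c => e c < e b₂)).sup id with hh₂
        have n₁ : ¬ b₁ ≤ h₁ := h2 b₁ hb₁.1
        have n₂ : ¬ b₂ ≤ h₂ := h2 b₂ hb₂.1
        have k₁' : b₁ ≤ a ⊔ h₁ := by
          refine k₁.trans (le_of_eq ?_)
          rw [hh₁, sup_right_comm, sup_comm]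
        have k₂' : b₂ ≤ a ⊔ h₂ := by
          refine k₂.trans (le_of_eq ?_)
          rw [hh₂, sup_right_comm, sup_comm]
        have hsub : h₁ ≤ h₂ := by
          refine sup_le_sup_left (Finset.sup_mono ?_) _
          intro c hc
          rw [Finset.mem_filter] at hc ⊢
          exact ⟨hc.1, hc.2.trans hlt⟩
        have hb₁h₂ : b₁ ≤ h₂ := by
          refine le_trans ?_ le_sup_right
          exact Finset.le_sup (f := id) (Finset.mem_filter.2 ⟨hb₁.1, hlt⟩)
        have hah₂ : a ≤ h₂ := by
          rcases hB a (Finset.mem_insert_self a B) h₁ with h | h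
          · exact absurd (k₁'.trans (sup_le h le_rfl)) n₁
          · rcases h.eq_or_eq (c := b₁ ⊔ h₁) le_sup_right (sup_le k₁' le_sup_right) with h' | h'
            · exact absurd (le_sup_left.trans h'.le) n₁
            · have : a ≤ b₁ ⊔ h₁ := by rw [h']; exact le_sup_left
              exact this.trans (sup_le hb₁h₂ hsub)
        exact n₂ (k₂'.trans (sup_le hah₂ le_rfl))
      intro b₁ hb₁ b₂ hb₂
      rcases lt_trichotomy (e b₁) (e b₂) with h | h | h
      · exact absurd h (key b₁ hb₁ b₂ hb₂)
      · exact he h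
      · exact absurd h (key b₂ hb₂ b₁ hb₁)
    rw [Finset.card_insert_of_notMem haB]
    have hsub : A' ⊆ A := Finset.filter_subset _ _
    have := Finset.card_sdiff_add_card_eq_card hsub
    omega

/-- Every join-irreducible which is not an atom has, under the height assumption, an atom below
it which is the largest element strictly below it. -/
lemma exists_star (h : ∀ a : L, SupIrred a → ∀ b c : L, c < b → b < a → c = ⊥) {b : L}
    (hb : SupIrred b) (hba : ¬ IsAtom b) : ∃ c : L, IsAtom c ∧ c < b ∧ ∀ z : L, z < b → z ≤ c := by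
  have hb0 : b ≠ ⊥ := fun h0 => hb.1 (h0 ▸ isMin_bot)
  obtain ⟨c, hc0, hcb⟩ : ∃ c : L, c ≠ ⊥ ∧ c < b := by
    by_contra hne
    push Not at hne
    refine hba ⟨hb0, fun c hc => ?_⟩
    by_contra h0
    exact hne c h0 hc
  refine ⟨c, ⟨hc0, fun z hz => h b hb c z hz hcb⟩, hcb, fun z hz => ?_⟩
  by_contra hzc
  have h1 : c ⊔ z ≤ b := sup_le hcb.le hz.le
  rcases eq_or_lt_of_le h1 with h2 | h2
  · rcases hb.2 h2 with h3 | h3
    · exact hcb.ne h3
    · exact hz.ne h3
  · have h3 : c < c ⊔ z := by
      refine lt_of_le_of_ne le_sup_left (fun h4 => hzc ?_)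
      rw [h4]
      exact le_sup_right
    exact hc0 (h b hb _ _ h3 h2)

open Classical in
/-- The join-irreducibles which are not atoms. -/
noncomputable def tops (L : Type*) [Lattice L] [Fintype L] [OrderBot L] : Finset L :=
  Finset.univ.filter (fun b => SupIrred b ∧ ¬ IsAtom b)

open Classical in
/-- The join of the atoms below `x`. -/
noncomputable def base (x : L) : L := (Finset.univ.filter (fun a : L => IsAtom a ∧ a ≤ x)).sup id

open Classical in
/-- The greedy basis of the non-atomic join-irreducibles below `x`, over `base x`. -/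
noncomputable def indep (e : L → ℕ) (x : L) : Finset L :=
  (tops L).filter (fun b => b ≤ x ∧
    ¬ b ≤ base x ⊔ ((tops L).filter (fun c => c ≤ x ∧ e c < e b)).sup id)

open Classical in
/-- The elements `x ≥ b` at which `b` cannot be removed. -/
noncomputable def bad (s : L → L) (b : L) : Finset L :=
  Finset.univ.filter (fun x => b ≤ x ∧ ∀ y : L, y ⋖ x → s b ≤ y → b ≤ y)

open Classical in
lemma base_le (x : L) : base x ≤ x :=
  Finset.sup_le fun _ ha => (Finset.mem_filter.1 ha).2.2

open Classical in
lemma atom_le_base {a x : L} (ha : IsAtom a) (hax : a ≤ x) : a ≤ base x :=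
  Finset.le_sup (f := id) (Finset.mem_filter.2 ⟨Finset.mem_univ _, ha, hax⟩)

/-- The element `x` is generated by the atoms below it and by `indep e x`. -/
lemma le_gen (e : L → ℕ) (x : L) : x ≤ base x ⊔ (indep e x).sup id := by
  classical
  -- all non-atomic join-irreducibles below `x`
  have key : ∀ n : ℕ, ∀ b ∈ tops L, b ≤ x → e b = n → b ≤ base x ⊔ (indep e x).sup id := by
    intro n
    induction n using Nat.strong_induction_on with
    | _ n ih =>
      intro b hb hbx hn
      by_cases hi : b ∈ indep e x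
      · exact (Finset.le_sup (f := id) hi).trans le_sup_right
      · rw [indep, Finset.mem_filter, not_and, not_and, not_not] at hi
        refine (hi hb hbx).trans (sup_le le_sup_left (Finset.sup_le fun c hc => ?_))
        rw [Finset.mem_filter] at hc
        exact ih (e c) (hn ▸ hc.2.2) c hc.1 hc.2.1 rfl
  by_contra hx
  obtain ⟨c, hc, hcx, hcn, -⟩ := exists_min hx
  by_cases ha : IsAtom c
  · exact hcn ((atom_le_base ha hcx).trans le_sup_left)
  · exact hcn (key (e c) c (Finset.mem_filter.2 ⟨Finset.mem_univ _, hc, ha⟩) hcx rfl)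

open Classical in
/-- (C2), first half. -/
lemma le_of_bad [IsUpperModularLattice L] (e : L → ℕ) (s : L → L)
    (hs : ∀ b ∈ tops L, IsAtom (s b) ∧ s b < b ∧ ∀ z : L, z < b → z ≤ s b) {b z : L}
    (hb : b ∈ tops L) (hz : z ∈ bad s b) : b ≤ s b ⊔ ((indep e z).image s).sup id := by
  obtain ⟨-, hbz, hbad⟩ := Finset.mem_filter.1 hz
  by_contra hv
  set v := s b ⊔ ((indep e z).image s).sup id with hvdef
  have hvz : v ≤ z := by
    refine sup_le ((hs b hb).2.1.le.trans hbz) (Finset.sup_le fun c hc => ?_)
    obtain ⟨d, hd, rfl⟩ := Finset.mem_image.1 hc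
    rw [indep, Finset.mem_filter] at hd
    exact (hs d hd.1).2.1.le.trans hd.2.1
  obtain ⟨y, hy⟩ := (Set.toFinite {y : L | v ≤ y ∧ y ≤ z ∧ ¬ b ≤ y}).exists_maximal
    ⟨v, le_rfl, hvz, hv⟩
  obtain ⟨⟨hy1, hy2, hy3⟩, hymax⟩ := hy
  have hlowb : ∀ w : L, w < b → w ≤ y := fun w hw =>
    ((hs b hb).2.2 w hw).trans (le_sup_left.trans hy1)
  have hbcov : y ⋖ b ⊔ y := covBy_sup hlowb hy3
  -- a generator of `z` not below `b ⊔ y` would contradict the maximality
  have hgen : ∀ c : L, (∀ w : L, w < c → w ≤ y) → c ≤ z → c ≤ b ⊔ y := by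
    intro c hlow hcz
    by_contra hcn
    have hcy : ¬ c ≤ y := fun h => hcn (h.trans le_sup_right)
    have hccov : y ⋖ c ⊔ y := covBy_sup hlow hcy
    have hbc : b ≤ c ⊔ y := by
      by_contra hbc
      have h3 := hymax (show c ⊔ y ∈ {y : L | v ≤ y ∧ y ≤ z ∧ ¬ b ≤ y} from
        ⟨hy1.trans le_sup_right, sup_le hcz hy2, hbc⟩) le_sup_right
      exact hcy (le_sup_left.trans h3)
    have h4 : b ⊔ y = c ⊔ y := by
      rcases hccov.eq_or_eq hbcov.le (sup_le hbc le_sup_right) with h | h
      · exact absurd (h ▸ le_sup_left) hy3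
      · exact h
    exact hcn (h4 ▸ le_sup_left)
  have hzy : z ≤ b ⊔ y := by
    refine (le_gen e z).trans (sup_le (Finset.sup_le fun a ha => ?_) (Finset.sup_le fun c hc => ?_))
    · obtain ⟨-, ha1, ha2⟩ := Finset.mem_filter.1 ha
      refine hgen a (fun w hw => ?_) ha2
      rw [ha1.2 w hw]
      exact bot_le
    · have hc' := hc
      rw [indep, Finset.mem_filter] at hc'
      refine hgen c (fun w hw => ?_) hc'.2.1
      refine ((hs c hc'.1).2.2 w hw).trans (le_trans ?_ hy1)
      exact (Finset.le_sup (f := id) (Finset.mem_image_of_mem s hc)).trans le_sup_right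
  have hz' : z = b ⊔ y := le_antisymm hzy (sup_le hbz hy2)
  rw [hz'] at hbad
  exact hy3 (hbad y hbcov (le_sup_left.trans hy1))

open Classical in
/-- (C2). -/
lemma pair_ineq [IsUpperModularLattice L] (e : L → ℕ) (he : Function.Injective e) (s : L → L)
    (hs : ∀ b ∈ tops L, IsAtom (s b) ∧ s b < b ∧ ∀ z : L, z < b → z ≤ s b) (x z : L) :
    ((indep e x).filter (fun b => z ∈ bad s b)).card ≤
      ((indep e z).filter (fun c => ¬ s c ≤ x)).card := by
  set A := (indep e x).filter (fun b => z ∈ bad s b) with hA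
  set C := (indep e z).filter (fun c => ¬ s c ≤ x) with hC
  refine le_trans ?_ (Finset.card_image_le (s := C) (f := s))
  refine exchange e he (C.image s) ?_ A (base x) ?_ ?_
  · intro a ha h
    obtain ⟨c, hc, rfl⟩ := Finset.mem_image.1 ha
    have hc' := (Finset.mem_filter.1 hc).1
    rw [indep, Finset.mem_filter] at hc'
    have hatom := (hs c hc'.1).1
    by_cases hle : s c ≤ h
    · exact Or.inl hle
    · refine Or.inr (covBy_sup (fun w hw => ?_) hle)
      rw [hatom.2 w hw]
      exact bot_le
  · intro b hb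
    obtain ⟨hb1, hb2⟩ := Finset.mem_filter.1 hb
    have hb1' := hb1
    rw [indep, Finset.mem_filter] at hb1'
    refine (le_of_bad e s hs hb1'.1 hb2).trans (sup_le ?_ (Finset.sup_le fun d hd => ?_))
    · exact (atom_le_base (hs b hb1'.1).1 ((hs b hb1'.1).2.1.le.trans hb1'.2.1)).trans le_sup_left
    · obtain ⟨c, hc, rfl⟩ := Finset.mem_image.1 hd
      have hc' := hc
      rw [indep, Finset.mem_filter] at hc'
      by_cases hcx : s c ≤ x
      · exact (atom_le_base (hs c hc'.1).1 hcx).trans le_sup_left
      · exact (Finset.le_sup (f := id) (Finset.mem_image_of_mem s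
          (Finset.mem_filter.2 ⟨hc, hcx⟩))).trans le_sup_right
  · intro b hb hle
    obtain ⟨hb1, -⟩ := Finset.mem_filter.1 hb
    rw [indep, Finset.mem_filter] at hb1
    refine hb1.2.2 (hle.trans (sup_le_sup_left (Finset.sup_mono ?_) _))
    intro c hc
    obtain ⟨hc1, hc2⟩ := Finset.mem_filter.1 hc
    have hc3 := (Finset.mem_filter.1 hc1).1
    rw [indep, Finset.mem_filter] at hc3
    exact Finset.mem_filter.2 ⟨hc3.1, hc3.2.1, hc2⟩

open Classical in
/-- (C1). -/
lemma count_ineq (s : L → L) {b : L} (hsb : s b < b) :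
    2 * (Finset.univ.filter (fun x : L => b ≤ x)).card +
      (Finset.univ.filter (fun x : L => ¬ s b ≤ x)).card ≤
      Fintype.card L + (bad s b).card := by
  -- the good elements
  set U := Finset.univ.filter (fun x : L => b ≤ x) with hU
  set N := Finset.univ.filter (fun x : L => ¬ s b ≤ x) with hN
  have hbadU : bad s b ⊆ U := by
    intro x hx
    exact Finset.mem_filter.2 ⟨Finset.mem_univ _, (Finset.mem_filter.1 hx).2.1⟩
  have hgood : ∀ x ∈ U \ bad s b, ∃ y : L, y ⋖ x ∧ s b ≤ y ∧ ¬ b ≤ y := by
    intro x hx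
    by_contra hne
    push Not at hne
    have hx1 := Finset.mem_sdiff.1 hx
    exact hx1.2 (Finset.mem_filter.2 ⟨Finset.mem_univ _, (Finset.mem_filter.1 hx1.1).2, hne⟩)
  choose! g hg using hgood
  have hinj : Set.InjOn g (U \ bad s b : Finset L) := by
    intro x hx x' hx' hxx
    rw [Finset.mem_coe] at hx hx'
    have h1 := hg x hx
    have h2 := hg x' hx'
    have h3 : ∀ w ∈ U \ bad s b, w = b ⊔ g w := by
      intro w hw
      have hw1 := hg w hw
      have hbw : b ≤ w := (Finset.mem_filter.1 (Finset.mem_sdiff.1 hw).1).2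
      rcases hw1.1.eq_or_eq (c := b ⊔ g w) le_sup_right (sup_le hbw hw1.1.le) with h | h
      · exact absurd (h ▸ le_sup_left) hw1.2.2
      · exact h.symm
    rw [h3 x hx, h3 x' hx', hxx]
  have hmaps : ∀ x ∈ U \ bad s b, g x ∈ (Finset.univ \ U) \ N := by
    intro x hx
    have h1 := hg x hx
    exact Finset.mem_sdiff.2 ⟨Finset.mem_sdiff.2 ⟨Finset.mem_univ _,
      fun h => h1.2.2 (Finset.mem_filter.1 h).2⟩, fun h => (Finset.mem_filter.1 h).2 h1.2.1⟩
  have hcard := Finset.card_le_card_of_injOn g hmaps hinj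
  have hNU : N ⊆ Finset.univ \ U := by
    intro x hx
    exact Finset.mem_sdiff.2 ⟨Finset.mem_univ _,
      fun h => (Finset.mem_filter.1 hx).2 (hsb.le.trans (Finset.mem_filter.1 h).2)⟩
  have c1 := Finset.card_sdiff_add_card_eq_card hbadU
  have c2 := Finset.card_sdiff_add_card_eq_card hNU
  have c3 := Finset.card_sdiff_add_card_eq_card (Finset.subset_univ U)
  rw [Finset.card_univ] at c3
  omega

open Classical in
/-- The main step, when there are non-atomic join-irreducibles. -/
lemma main_tops [IsUpperModularLattice L]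
    (h : ∀ a : L, SupIrred a → ∀ b c : L, c < b → b < a → c = ⊥) (hT : (tops L).Nonempty) :
    ∃ a : L, SupIrred a ∧ 2 * (Finset.univ.filter (fun x : L => a ≤ x)).card ≤ Fintype.card L := by
  have hs : ∀ b ∈ tops L, ∃ c : L, IsAtom c ∧ c < b ∧ ∀ z : L, z < b → z ≤ c := by
    intro b hb
    obtain ⟨-, h1, h2⟩ := Finset.mem_filter.1 hb
    exact exists_star h h1 h2
  choose! s hs using hs
  obtain ⟨e, he⟩ : ∃ e : L → ℕ, Function.Injective e :=
    ⟨fun x => (Fintype.equivFin L x : ℕ), fun x y hxy => (Fintype.equivFin L).injective (Fin.ext hxy)⟩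
  -- it is enough to find `b` with `|bad b| ≤ |N b|`
  suffices hmain : ∃ b ∈ tops L, (bad s b).card ≤ (Finset.univ.filter (fun x : L => ¬ s b ≤ x)).card by
    obtain ⟨b, hb, hle⟩ := hmain
    refine ⟨b, (Finset.mem_filter.1 hb).2.1, ?_⟩
    have := count_ineq s (hs b hb).2.1
    omega
  by_contra hne
  push Not at hne
  set q : L → ℕ := fun b => (Finset.univ.filter (fun x : L => b ∈ indep e x)).card with hq
  have hle : ∑ b ∈ tops L, q b * (bad s b).card ≤
      ∑ b ∈ tops L, q b * (Finset.univ.filter (fun x : L => ¬ s b ≤ x)).card := by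
    have e1 : ∑ b ∈ tops L, q b * (bad s b).card =
        ∑ x : L, ∑ z : L, ((indep e x).filter (fun b => z ∈ bad s b)).card := by
      have : ∀ x z : L, ((indep e x).filter (fun b => z ∈ bad s b)).card =
          ∑ b ∈ tops L, if (b ∈ indep e x ∧ z ∈ bad s b) then 1 else 0 := by
        intro x z
        rw [Finset.card_filter, ← Finset.sum_filter_add_sum_filter_not (tops L) (fun b => b ∈ indep e x)]
        have hf : (tops L).filter (fun b => b ∈ indep e x) = indep e x := by
          ext b
          rw [Finset.mem_filter]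
          exact ⟨fun h => h.2, fun h => ⟨(Finset.mem_filter.1 h).1, h⟩⟩
        rw [hf]
        have h0 : ∑ b ∈ (tops L).filter (fun b => ¬ b ∈ indep e x),
            (if (b ∈ indep e x ∧ z ∈ bad s b) then 1 else 0) = 0 := by
          refine Finset.sum_eq_zero fun b hb => ?_
          rw [if_neg]
          exact fun h => (Finset.mem_filter.1 hb).2 h.1
        rw [h0, add_zero]
        refine Finset.sum_congr rfl fun b hb => ?_
        simp [hb]
      simp_rw [this]
      rw [Finset.sum_congr rfl (fun x _ => Finset.sum_comm), Finset.sum_comm]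
      refine Finset.sum_congr rfl fun b _ => ?_
      rw [hq]
      simp only
      rw [Finset.card_filter, Finset.sum_mul]
      refine Finset.sum_congr rfl fun x _ => ?_
      by_cases hx : b ∈ indep e x
      · simp only [hx, true_and, if_true, one_mul]
        rw [Finset.sum_ite_mem]
        simp
      · simp [hx]
    have e2 : ∑ b ∈ tops L, q b * (Finset.univ.filter (fun x : L => ¬ s b ≤ x)).card =
        ∑ x : L, ∑ z : L, ((indep e z).filter (fun b => ¬ s b ≤ x)).card := by
      have : ∀ x z : L, ((indep e z).filter (fun b => ¬ s b ≤ x)).card =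
          ∑ b ∈ tops L, if (b ∈ indep e z ∧ ¬ s b ≤ x) then 1 else 0 := by
        intro x z
        rw [Finset.card_filter, ← Finset.sum_filter_add_sum_filter_not (tops L) (fun b => b ∈ indep e z)]
        have hf : (tops L).filter (fun b => b ∈ indep e z) = indep e z := by
          ext b
          rw [Finset.mem_filter]
          exact ⟨fun h => h.2, fun h => ⟨(Finset.mem_filter.1 h).1, h⟩⟩
        rw [hf]
        have h0 : ∑ b ∈ (tops L).filter (fun b => ¬ b ∈ indep e z),
            (if (b ∈ indep e z ∧ ¬ s b ≤ x) then 1 else 0) = 0 := by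
          refine Finset.sum_eq_zero fun b hb => ?_
          rw [if_neg]
          exact fun h => (Finset.mem_filter.1 hb).2 h.1
        rw [h0, add_zero]
        refine Finset.sum_congr rfl fun b hb => ?_
        simp [hb]
      simp_rw [this]
      rw [Finset.sum_comm, Finset.sum_congr rfl (fun x _ => Finset.sum_comm), Finset.sum_comm]
      refine Finset.sum_congr rfl fun b _ => ?_
      rw [hq]
      simp only
      rw [Finset.card_filter, Finset.sum_mul]
      refine Finset.sum_congr rfl fun x _ => ?_
      by_cases hx : b ∈ indep e x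
      · simp only [hx, true_and, if_true, one_mul]
        rw [Finset.card_filter]
      · simp [hx]
    rw [e1, e2]
    exact Finset.sum_le_sum fun x _ => Finset.sum_le_sum fun z _ => pair_ineq e he s hs x z
  have hlt : ∑ b ∈ tops L, q b * (Finset.univ.filter (fun x : L => ¬ s b ≤ x)).card <
      ∑ b ∈ tops L, q b * (bad s b).card := by
    refine Finset.sum_lt_sum_of_nonempty hT fun b hb => ?_
    refine Nat.mul_lt_mul_of_pos_left (hne b hb) ?_
    rw [hq]
    simp only
    refine Finset.card_pos.2 ⟨b, Finset.mem_filter.2 ⟨Finset.mem_univ _, ?_⟩⟩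
    refine Finset.mem_filter.2 ⟨hb, le_rfl, fun hle => ?_⟩
    have hsb := hs b hb
    have h1 : base b ⊔ ((tops L).filter (fun c => c ≤ b ∧ e c < e b)).sup id ≤ s b := by
      refine sup_le (Finset.sup_le fun a ha => ?_) (Finset.sup_le fun c hc => ?_)
      · obtain ⟨-, ha1, ha2⟩ := Finset.mem_filter.1 ha
        refine hsb.2.2 a (lt_of_le_of_ne ha2 (fun h0 => ?_))
        exact (Finset.mem_filter.1 hb).2.2 (h0 ▸ ha1)
      · obtain ⟨-, hc2, hc3⟩ := Finset.mem_filter.1 hc
        refine hsb.2.2 c (lt_of_le_of_ne hc2 (fun h0 => ?_))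
        rw [h0] at hc3
        exact lt_irrefl _ hc3
    exact absurd (hle.trans h1) (not_le_of_gt hsb.2.1)
  exact absurd hle (not_le_of_gt hlt)

/-- If all join-irreducibles are atoms, every element above the atom `p` is a join of `p` and an
element not above `p`. -/
lemma exists_compl [IsUpperModularLattice L] (hat : ∀ q : L, SupIrred q → IsAtom q) {p x : L}
    (hp : IsAtom p) (hpx : p ≤ x) : ∃ y : L, ¬ p ≤ y ∧ p ⊔ y = x := by
  classical
  obtain ⟨y, hy⟩ := (Set.toFinite {y : L | y ≤ x ∧ ¬ p ≤ y}).exists_maximal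
    ⟨⊥, bot_le, fun h => hp.1 (le_bot_iff.1 h)⟩
  obtain ⟨⟨hy2, hy3⟩, hymax⟩ := hy
  have cov : ∀ c : L, IsAtom c → ¬ c ≤ y → y ⋖ c ⊔ y := fun c hc hcy =>
    covBy_sup (fun w hw => by rw [hc.2 w hw]; exact bot_le) hcy
  refine ⟨y, hy3, le_antisymm (sup_le hpx hy2) ?_⟩
  by_contra hx
  obtain ⟨c, hc, hcx, hcn, -⟩ := exists_min hx
  have hcy : ¬ c ≤ y := fun h => hcn (h.trans le_sup_right)
  have h1 := cov c (hat c hc) hcy
  have h2 : p ≤ c ⊔ y := by
    by_contra hpc
    have h3 := hymax (show c ⊔ y ∈ {y : L | y ≤ x ∧ ¬ p ≤ y} from ⟨sup_le hcx hy2, hpc⟩) le_sup_right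
    exact hcy (le_sup_left.trans h3)
  have h4 : p ⊔ y = c ⊔ y := by
    rcases h1.eq_or_eq (cov p hp hy3).le (sup_le h2 le_sup_right) with h | h
    · exact absurd (h ▸ le_sup_left) hy3
    · exact h
  exact hcn (h4 ▸ le_sup_left)

end Order

theorem result (L : Type*) [Lattice L] [BoundedOrder L] [Finite L] [IsUpperModularLattice L]
    (hL : 2 ≤ Nat.card L)
    (h : ∀ a : L, SupIrred a → ∀ b c : L, c < b → b < a → c = ⊥) :
    ∃ a : L, SupIrred a ∧ 2 * Nat.card {x : L // a ≤ x} ≤ Nat.card L := by
  classical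
  have := Fintype.ofFinite L
  have hconv : ∀ a : L, Nat.card {x : L // a ≤ x} =
      (Finset.univ.filter (fun x : L => a ≤ x)).card := by
    intro a
    rw [Nat.card_eq_fintype_card, Fintype.card_subtype]
  rcases (tops L).eq_empty_or_nonempty with hT | hT
  · have hat : ∀ q : L, SupIrred q → IsAtom q := by
      intro q hq
      by_contra hqa
      have : q ∈ tops L := Finset.mem_filter.2 ⟨Finset.mem_univ _, hq, hqa⟩
      rw [hT] at this
      exact absurd this (Finset.notMem_empty q)
    have hnt : ¬ (⊤ : L) ≤ ⊥ := by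
      intro h0
      have : Nat.card L ≤ 1 := by
        rw [Finite.card_le_one_iff_subsingleton]
        exact ⟨fun a b => le_antisymm ((le_top.trans h0).trans bot_le) ((le_top.trans h0).trans bot_le)⟩
      omega
    obtain ⟨a, ha, -, -, -⟩ := exists_min hnt
    refine ⟨a, ha, ?_⟩
    have hc := fun x : {x : L // a ≤ x} => exists_compl hat (hat a ha) x.2
    choose f hf using hc
    have hinj : Function.Injective
        (fun x : {x : L // a ≤ x} => (⟨f x, (hf x).1⟩ : {y : L // ¬ a ≤ y})) := by
      intro x x' hxx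
      have h1 : f x = f x' := congrArg Subtype.val hxx
      apply Subtype.ext
      rw [← (hf x).2, ← (hf x').2, h1]
    have hcard := Nat.card_le_card_of_injective _ hinj
    have hsum : Nat.card {x : L // a ≤ x} + Nat.card {y : L // ¬ a ≤ y} = Nat.card L := by
      rw [← Nat.card_sum]
      exact Nat.card_congr (Equiv.sumCompl (fun x : L => a ≤ x))
    omega
  · obtain ⟨a, ha, hle⟩ := main_tops h hT
    refine ⟨a, ha, ?_⟩
    rw [hconv a, Nat.card_eq_fintype_card]
    exact hle

end Pool.Agent.H15.Fr.Height2
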