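import Pool.Agent.H15.Fr.Main

set_option autoImplicit false

/-!
Frankl's inequality for upper semimodular lattices with a maximal join-irreducible `j` such that
`[j, 1]` has length at most `5`.
-/

namespace Pool.Agent.H15.Fr

open Finset

variable {L : Type*} [Lattice L] [Fintype L]

lemma len5 [IsUpperModularLattice L] [BoundedOrder L] {j : L} (hj : SupIrred j)
    (hmax : ∀ k : L, SupIrred k → j ≤ k → k = j)
    (hlen : ∀ a b c d e f g : L, j ≤ a → a < b → b < c → c < d → d < e → e < f → f < g → False) :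
    Frk L := by
  classical
  by_contra hF
  have hJ3 : ∀ γ : L, JM j γ → ¬ j ⋖ γ → ∃ y z : L, γ < y ∧ y < z ∧ z < ⊤ := by
    intro γ h1 h2
    by_contra hcon
    push Not at hcon
    refine hF (short_gamma hj hmax h1 h2 ?_)
    intro y z hy hz
    by_contra hne
    exact hcon y z hy hz (lt_of_le_of_ne le_top hne)
  have mid : ∀ γ : L, JM j γ → ¬ j ⋖ γ → ∃ t : L, j < t ∧ t < γ := by
    intro γ h1 h2
    rw [not_covBy_iff h1.1] at h2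
    exact h2
  have ncov : ∀ t γ : L, j < t → t < γ → ¬ j ⋖ γ := fun t γ h1 h2 h3 => h3.2 h1 h2
  have R2 : ∀ δ : L, JM j δ → ∀ t t' : L, j < t → t < t' → t' < δ → False := by
    intro δ hδ t t' h1 h2 h3
    obtain ⟨y, z, hy, hz, hzt⟩ := hJ3 δ hδ (ncov t δ h1 (h2.trans h3))
    exact hlen j t t' δ y z ⊤ le_rfl h1 h2 h3 hy hz hzt
  have R2' : ∀ γ δ : L, JM j γ → ¬ j ⋖ γ → JM j δ → γ ≤ δ → γ = δ := by
    intro γ δ hγ hγc hδ hle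
    by_contra hne
    obtain ⟨t, h1, h2⟩ := mid γ hγ hγc
    exact R2 δ hδ t γ h1 h2 (lt_of_le_of_ne hle hne)
  -- length of `[w, 1]` for `w` of height at least three over `j`
  have R4 : ∀ t t' w : L, j < t → t < t' → t' < w → ∀ y z : L, w < y → y < z → z = ⊤ := by
    intro t t' w h1 h2 h3 y z h4 h5
    by_contra hne
    exact hlen j t t' w y z ⊤ le_rfl h1 h2 h3 h4 h5 (lt_of_le_of_ne le_top hne)
  -- the elements above `w`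
  have up : ∀ w y : L, j ≤ w → (∀ y z : L, w < y → y < z → z = ⊤) → w < y → y < ⊤ →
      ∃ δ d : L, JM j δ ∧ δ ≤ y ∧ ¬ δ ≤ w ∧ SupIrred d ∧ d ⊔ j = δ ∧ ¬ j ≤ d ∧ d ⊔ w = y := by
    intro w y hjw hl hy hyt
    obtain ⟨δ, hδJ, hδy, hδw, _⟩ := exists_JM_min (hjw.trans hy.le) hjw (not_le_of_gt hy)
    obtain ⟨d, hd, hdj, hjd, _⟩ := exists_lift hmax hδJ
    refine ⟨δ, d, hδJ, hδy, hδw, hd, hdj, hjd, ?_⟩
    have h1 : d ⊔ w = δ ⊔ w := by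
      rw [← hdj, sup_assoc, sup_eq_right.2 hjw]
    rw [h1]
    have h2 : w < δ ⊔ w := lt_of_le_of_ne le_sup_right (fun h => hδw (h ▸ le_sup_left))
    by_contra hne
    have h3 : δ ⊔ w < y := lt_of_le_of_ne (sup_le hδy hy.le) hne
    exact hyt.ne (hl _ _ h2 h3)
  -- Claim A
  have A : ∀ δ₁ δ₂ d₁ d₂ : L, JM j δ₁ → ¬ j ⋖ δ₁ → JM j δ₂ → ¬ j ⋖ δ₂ → δ₁ ≠ δ₂ →
      SupIrred d₁ → SupIrred d₂ → d₁ ⊔ j = δ₁ → d₂ ⊔ j = δ₂ → ¬ j ≤ d₁ ⊔ d₂ := by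
    intro δ₁ δ₂ d₁ d₂ hδ₁ hc₁ hδ₂ hc₂ hne hd₁ hd₂ hdj₁ hdj₂ hjd
    have h1 : δ₁ ≤ d₁ ⊔ d₂ := hdj₁ ▸ sup_le le_sup_left hjd
    have h2 : δ₂ ≤ d₁ ⊔ d₂ := hdj₂ ▸ sup_le le_sup_right hjd
    have h3 : δ₁ < d₁ ⊔ d₂ := by
      refine lt_of_le_of_ne h1 ?_
      intro h
      exact hne (R2' δ₂ δ₁ hδ₂ hc₂ hδ₁ (h ▸ h2)).symm
    obtain ⟨t, ht1, ht2⟩ := mid δ₁ hδ₁ hc₁
    have hl := R4 t δ₁ (d₁ ⊔ d₂) ht1 ht2 h3
    have hd₁j : ¬ d₁ ≤ j := by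
      intro h
      rw [sup_eq_right.2 h] at hdj₁
      exact hδ₁.1.ne hdj₁
    have hd₂j : ¬ d₂ ≤ j := by
      intro h
      rw [sup_eq_right.2 h] at hdj₂
      exact hδ₂.1.ne hdj₂
    refine hF (two_irr' d₁ d₂ hd₁ hd₂ ⊥ j hj.ne_bot.symm bot_le hjd
      (fun h => hd₁.ne_bot (le_bot_iff.1 h)) (fun h => hd₂.ne_bot (le_bot_iff.1 h))
      hd₁j hd₂j ?_)
    intro y hy hyt
    obtain ⟨ε, e, hε, hεy, hεw, he, hej, hje, hew⟩ := up _ y hjd hl hy hyt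
    refine ⟨e, ?_, ?_, hew⟩
    · intro h
      have h4 : δ₁ ≤ ε := by
        rw [← hdj₁, ← hej]
        exact sup_le_sup_right h j
      exact hεw (R2' δ₁ ε hδ₁ hc₁ hε h4 ▸ h1)
    · intro h
      have h4 : δ₂ ≤ ε := by
        rw [← hdj₂, ← hej]
        exact sup_le_sup_right h j
      exact hεw (R2' δ₂ ε hδ₂ hc₂ hε h4 ▸ h2)
  -- Claim B
  have B : ∀ δ p d e : L, JM j δ → ¬ j ⋖ δ → j ⋖ p → ¬ p ≤ δ → SupIrred d → SupIrred e →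
      d ⊔ j = δ → e ⊔ j = p → ¬ j ≤ d ⊔ e := by
    intro δ p d e hδ hc hp hpδ hd he hdj hej hjd
    have h1 : δ ≤ d ⊔ e := hdj ▸ sup_le le_sup_left hjd
    have h2 : p ≤ d ⊔ e := hej ▸ sup_le le_sup_right hjd
    have h3 : δ < d ⊔ e := lt_of_le_of_ne h1 (fun h => hpδ (h ▸ h2))
    obtain ⟨t, ht1, ht2⟩ := mid δ hδ hc
    have hl := R4 t δ (d ⊔ e) ht1 ht2 h3
    have hdj' : ¬ d ≤ j := by
      intro h
      rw [sup_eq_right.2 h] at hdj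
      exact hδ.1.ne hdj
    have hej' : ¬ e ≤ j := by
      intro h
      rw [sup_eq_right.2 h] at hej
      exact hp.lt.ne hej
    refine hF (two_irr' d e hd he ⊥ j hj.ne_bot.symm bot_le hjd
      (fun h => hd.ne_bot (le_bot_iff.1 h)) (fun h => he.ne_bot (le_bot_iff.1 h))
      hdj' hej' ?_)
    intro y hy hyt
    obtain ⟨ε, e', hε, hεy, hεw, he', hej₁, hje', hew⟩ := up _ y hjd hl hy hyt
    refine ⟨e', ?_, ?_, hew⟩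
    · intro h
      have h4 : δ ≤ ε := by
        rw [← hdj, ← hej₁]
        exact sup_le_sup_right h j
      exact hεw (R2' δ ε hδ hc hε h4 ▸ h1)
    · intro h
      have h4 : p ≤ ε := by
        rw [← hej, ← hej₁]
        exact sup_le_sup_right h j
      have h5 : p < ε := lt_of_le_of_ne h4 (fun h => hεw (h ▸ h2))
      have h6 : δ ≠ ε := fun h => hεw (h ▸ h1)
      exact A δ ε d e' hδ hc hε (ncov p ε hp.lt h5) h6 hd he' hdj hej₁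
        (hjd.trans (sup_le_sup_left h d))
  -- Claim C
  obtain ⟨s, hs, hslow⟩ := exists_pred hj
  have C : ∀ p₁ p₂ e₁ e₂ : L, j ⋖ p₁ → j ⋖ p₂ → p₁ ≠ p₂ → e₁ ⊔ j = p₁ → e₂ ⊔ j = p₂ →
      (∀ z : L, z < e₁ → z < j) → (∀ z : L, z < e₂ → z < j) → ¬ j ≤ e₁ ⊔ e₂ := by
    intro p₁ p₂ e₁ e₂ hp₁ hp₂ hne he₁ he₂ hl₁ hl₂ h
    have h1 : ¬ j ≤ s ⊔ e₁ := by
      refine step (fun z hz => hslow z (hl₁ z hz)) (not_le_of_gt hs) ?_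
      rw [he₁, sup_eq_right.2 hs.le]
      exact not_le_of_gt hp₁.lt
    have h2 : ¬ j ≤ s ⊔ e₁ ⊔ e₂ := by
      refine step (fun z hz => (hslow z (hl₂ z hz)).trans le_sup_left) h1 ?_
      rw [he₂, sup_assoc, he₁, sup_eq_right.2 (hs.le.trans hp₁.lt.le)]
      intro h3
      rcases hp₁.eq_or_eq hp₂.lt.le h3 with h4 | h4
      · exact hp₂.lt.ne h4.symm
      · exact hne h4.symm
    refine h2 (h.trans ?_)
    rw [sup_assoc]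
    exact le_sup_right
  -- not atomistic
  by_cases hat : ∀ v w : L, j ≤ v → v < w → ∃ p : L, j ⋖ p ∧ p ≤ w ∧ ¬ p ≤ v
  · exact hF (atomistic hj hmax hat)
  push Not at hat
  obtain ⟨v, w, hjv, hvw, hsep⟩ := hat
  obtain ⟨γ, hγ, hγw, hγv, _⟩ := exists_JM_min (hjv.trans hvw.le) hjv (not_le_of_gt hvw)
  have hγc : ¬ j ⋖ γ := fun h => hγv (hsep γ h hγw)
  obtain ⟨t, ht1, ht2⟩ := mid γ hγ hγc
  have R3 : ∀ y₁ y₂ y₃ : L, γ < y₁ → y₁ < y₂ → y₂ < y₃ → y₃ = ⊤ := by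
    intro y₁ y₂ y₃ h1 h2 h3
    by_contra hne
    exact hlen j t γ y₁ y₂ y₃ ⊤ le_rfl ht1 ht2 h1 h2 h3 (lt_of_le_of_ne le_top hne)
  obtain ⟨p, hpJ, hpt, hpj, _⟩ := exists_JM_min ht1.le (le_refl j) (not_le_of_gt ht1)
  obtain ⟨e, he, hej, hje, _⟩ := exists_lift hmax hpJ
  obtain ⟨b, hb, hbj, hjb, _⟩ := exists_lift hmax hγ
  have hpg : p < γ := lt_of_le_of_lt hpt ht2
  have hbp : ¬ b ≤ p := by
    intro h
    have : γ ≤ p := hbj ▸ sup_le h hpJ.1.le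
    exact absurd hpg (not_lt_of_ge this)
  obtain ⟨g, hjg, hgγ, hglow⟩ := exists_predM hγ
  -- two points of `[γ, 1]`
  have two : ∀ π₁ π₂ δ₁ δ₂ : L, γ ⋖ π₁ → γ ⋖ π₂ → π₁ ≠ π₂ → JM j δ₁ → JM j δ₂ →
      δ₁ ⊔ γ = π₁ → δ₂ ⊔ γ = π₂ → (∀ z : L, j ≤ z → z < δ₁ → z ≤ γ) →
      (∀ z : L, j ≤ z → z < δ₂ → z ≤ γ) → ¬ γ ≤ δ₁ ⊔ δ₂ := by
    intro π₁ π₂ δ₁ δ₂ hπ₁ hπ₂ hne hδ₁ hδ₂ hδπ₁ hδπ₂ hl₁ hl₂ h
    have hδ₁γ : ¬ δ₁ ≤ γ := by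
      intro h1
      rw [sup_eq_right.2 h1] at hδπ₁
      exact hπ₁.lt.ne hδπ₁
    have hδ₂γ : ¬ δ₂ ≤ γ := by
      intro h1
      rw [sup_eq_right.2 h1] at hδπ₂
      exact hπ₂.lt.ne hδπ₂
    have hδ₂π : ¬ δ₂ ≤ π₁ := by
      intro h1
      have h2 : π₂ ≤ π₁ := hδπ₂ ▸ sup_le h1 hπ₁.lt.le
      rcases hπ₁.eq_or_eq hπ₂.lt.le h2 with h3 | h3
      · exact hπ₂.lt.ne h3.symm
      · exact hne h3.symm
    have hl₁' : ∀ z : L, j ≤ z → z < δ₁ → z ≤ g := by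
      intro z hjz hz
      refine hglow z hjz (lt_of_le_of_ne (hl₁ z hjz hz) ?_)
      rintro rfl
      exact hz.ne (R2' _ _ hγ hγc hδ₁ hz.le)
    have hl₂' : ∀ z : L, j ≤ z → z < δ₂ → z ≤ g := by
      intro z hjz hz
      refine hglow z hjz (lt_of_le_of_ne (hl₂ z hjz hz) ?_)
      rintro rfl
      exact hz.ne (R2' _ _ hγ hγc hδ₂ hz.le)
    have c1 : g ⋖ g ⊔ δ₁ :=
      covBy_supM hjg hδ₁.1.le hl₁' (fun h1 => hδ₁γ (h1.trans hgγ.le))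
    have hq : g ⊔ δ₁ ≤ π₁ := sup_le (hgγ.le.trans hπ₁.lt.le) (hδπ₁ ▸ le_sup_left)
    have c2 : g ⊔ δ₁ ⋖ g ⊔ δ₁ ⊔ δ₂ :=
      covBy_supM (hjg.trans le_sup_left) hδ₂.1.le
        (fun z hjz hz => (hl₂' z hjz hz).trans le_sup_left) (fun h1 => hδ₂π (h1.trans hq))
    have hγq : ¬ γ ≤ g ⊔ δ₁ := by
      intro h1
      rcases c1.eq_or_eq hgγ.le h1 with h2 | h2
      · exact hgγ.ne h2.symm
      · exact hδ₁γ (h2 ▸ le_sup_right)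
    have h4 : g ⊔ δ₁ < π₁ :=
      lt_of_le_of_ne hq (fun h1 => hγq (h1 ▸ hπ₁.lt.le))
    have h5 : π₁ ≤ g ⊔ δ₁ ⊔ δ₂ := by
      rw [← hδπ₁]
      refine sup_le (le_sup_right.trans le_sup_left) (h.trans ?_)
      rw [sup_assoc]
      exact le_sup_right
    rcases c2.eq_or_eq h4.le h5 with h6 | h6
    · exact h4.ne h6.symm
    · exact hδ₂π (h6 ▸ le_sup_right)
  refine hF (two_irr' b j hb hj ⊥ e he.ne_bot.symm bot_le ?_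
    (fun h => hb.ne_bot (le_bot_iff.1 h)) (fun h => hj.ne_bot (le_bot_iff.1 h))
    (fun h => hbp (h.trans (le_sup_left.trans hej.le))) hje ?_)
  · rw [hbj]
    exact (le_sup_left.trans hej.le).trans hpg.le
  · intro y hy hyt
    rw [hbj] at hy ⊢
    by_cases hya : ∃ δ : L, JM j δ ∧ ¬ γ ≤ δ ∧ δ ⊔ γ = y
    · obtain ⟨δ, hδ, hγδ, hδy⟩ := hya
      obtain ⟨d, hd, hdj, hjd, _⟩ := exists_lift hmax hδ
      refine ⟨d, ?_, hjd, ?_⟩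
      · intro h
        refine hγδ ?_
        rw [← hbj, ← hdj]
        exact sup_le_sup_right h j
      · rw [← hδy, ← hdj, sup_assoc, sup_eq_right.2 hγ.1.le]
    · push Not at hya
      -- a point with its minimal element
      have pt : ∀ π : L, γ ⋖ π → ∃ δ : L, JM j δ ∧ δ ⊔ γ = π ∧ (∀ z : L, j ≤ z → z < δ → z ≤ γ) ∧
          ¬ γ ≤ δ := by
        intro π hπ
        obtain ⟨δ, hδJ, hδπ, hδγ, hδl⟩ := exists_JM_min (hγ.1.le.trans hπ.lt.le) hγ.1.le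
          (not_le_of_gt hπ.lt)
        refine ⟨δ, hδJ, ?_, hδl, ?_⟩
        · rcases hπ.eq_or_eq (le_sup_right : γ ≤ δ ⊔ γ) (sup_le hδπ hπ.lt.le) with h | h
          · exact absurd (h ▸ le_sup_left) hδγ
          · exact h
        · intro h
          exact hδγ (R2' _ _ hγ hγc hδJ h).ge
      obtain ⟨π₁, hπ₁, hπ₁y⟩ := exists_covBy_le_of_lt hy
      obtain ⟨δ₁, hδ₁, hδπ₁, hδl₁, hγδ₁⟩ := pt π₁ hπ₁
      have hπ₁y' : π₁ < y := by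
        refine lt_of_le_of_ne hπ₁y ?_
        intro h
        exact hya δ₁ hδ₁ hγδ₁ (hδπ₁.trans h)
      obtain ⟨δ', hδ', hδ'y, hδ'π, _⟩ := exists_JM_min (hγ.1.le.trans hy.le)
        (hγ.1.le.trans hπ₁.lt.le) (not_le_of_gt hπ₁y')
      have hγδ' : ¬ γ ≤ δ' := by
        intro h
        exact hδ'π ((R2' _ _ hγ hγc hδ' h).ge.trans hπ₁.lt.le)
      have hπ₂y : δ' ⊔ γ < y :=
        lt_of_le_of_ne (sup_le hδ'y hy.le) (hya δ' hδ' hγδ')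
      have hγπ₂ : γ < δ' ⊔ γ :=
        lt_of_le_of_ne le_sup_right (fun h => hδ'π ((le_sup_left.trans h.ge).trans hπ₁.lt.le))
      have hπ₂ : γ ⋖ δ' ⊔ γ := by
        refine ⟨hγπ₂, ?_⟩
        intro z hz1 hz2
        exact hyt.ne (R3 z _ y hz1 hz2 hπ₂y)
      have hπne : π₁ ≠ δ' ⊔ γ := fun h => hδ'π (h ▸ le_sup_left)
      obtain ⟨δ₂, hδ₂, hδπ₂, hδl₂, hγδ₂⟩ := pt _ hπ₂
      obtain ⟨d₁, hd₁, hdj₁, hjd₁, hdm₁⟩ := exists_lift hmax hδ₁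
      obtain ⟨d₂, hd₂, hdj₂, hjd₂, hdm₂⟩ := exists_lift hmax hδ₂
      have hπ₂π₁ : ¬ δ' ⊔ γ ≤ π₁ := fun h => hδ'π (le_sup_left.trans h)
      have hπ₁π₂ : ¬ π₁ ≤ δ' ⊔ γ := by
        intro h
        rcases hπ₂.eq_or_eq hπ₁.lt.le h with h1 | h1
        · exact hπ₁.lt.ne h1.symm
        · exact hπne h1
      have hδ₂δ₁ : ¬ δ₂ ≤ δ₁ := by
        intro h
        refine hπ₂π₁ ?_
        rw [← hδπ₂, ← hδπ₁]
        exact sup_le_sup_right h γ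
      have hδ₁δ₂ : ¬ δ₁ ≤ δ₂ := by
        intro h
        refine hπ₁π₂ ?_
        rw [← hδπ₂, ← hδπ₁]
        exact sup_le_sup_right h γ
      have hδne : δ₁ ≠ δ₂ := fun h => hδ₁δ₂ h.le
      refine ⟨d₁ ⊔ d₂, ?_, ?_, ?_⟩
      · intro h
        refine two π₁ _ δ₁ δ₂ hπ₁ hπ₂ hπne hδ₁ hδ₂ hδπ₁ hδπ₂ hδl₁ hδl₂ ?_
        rw [← hbj, ← hdj₁, ← hdj₂, sup_sup_sup_comm, sup_idem]
        exact sup_le_sup_right h j
      · by_cases hc₁ : j ⋖ δ₁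
        · by_cases hc₂ : j ⋖ δ₂
          · exact C δ₁ δ₂ d₁ d₂ hc₁ hc₂ hδne hdj₁ hdj₂ (lift_low hc₁ hjd₁ hdj₁ hdm₁)
              (lift_low hc₂ hjd₂ hdj₂ hdm₂)
          · rw [sup_comm]
            exact B δ₂ δ₁ d₂ d₁ hδ₂ hc₂ hc₁ hδ₁δ₂ hd₂ hd₁ hdj₂ hdj₁
        · by_cases hc₂ : j ⋖ δ₂
          · exact B δ₁ δ₂ d₁ d₂ hδ₁ hc₁ hc₂ hδ₂δ₁ hd₁ hd₂ hdj₁ hdj₂
          · exact A δ₁ δ₂ d₁ d₂ hδ₁ hc₁ hδ₂ hc₂ hδne hd₁ hd₂ hdj₁ hdj₂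
      · -- `d₁ ⊔ d₂ ⊔ γ = y`
        have h1 : d₁ ⊔ d₂ ⊔ γ = π₁ ⊔ (δ' ⊔ γ) := by
          rw [← hδπ₂, ← hδπ₁, ← hdj₁, ← hdj₂]
          have e1 : d₁ ⊔ j ⊔ γ = d₁ ⊔ γ := by rw [sup_assoc, sup_eq_right.2 hγ.1.le]
          have e2 : d₂ ⊔ j ⊔ γ = d₂ ⊔ γ := by rw [sup_assoc, sup_eq_right.2 hγ.1.le]
          rw [e1, e2, sup_sup_sup_comm, sup_idem]
        rw [h1]
        by_contra hne
        have h2 : π₁ ⊔ (δ' ⊔ γ) < y := lt_of_le_of_ne (sup_le hπ₁y hπ₂y.le) hne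
        have h3 : π₁ < π₁ ⊔ (δ' ⊔ γ) :=
          lt_of_le_of_ne le_sup_left (fun h => hπ₂π₁ (h ▸ le_sup_right))
        exact hyt.ne (R3 π₁ _ y hπ₁.lt h3 h2)

end Pool.Agent.H15.Fr
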