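import Pool.Agent.H15.Fr.Two

set_option autoImplicit false

/-!
Frankl's inequality for upper semimodular lattices with a maximal join-irreducible `j` such that
`[j, 1]` is atomistic or has length at most `5`.
-/

namespace Pool.Agent.H15.Fr

open Finset

variable {L : Type*} [Lattice L] [Fintype L]

/-- `[j, 1]` atomistic. -/
lemma atomistic [IsUpperModularLattice L] {j : L} (hj : SupIrred j)
    (hmax : ∀ k : L, SupIrred k → j ≤ k → k = j)
    (hat : ∀ v w : L, j ≤ v → v < w → ∃ p : L, j ⋖ p ∧ p ≤ w ∧ ¬ p ≤ v) : Frk L := by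
  classical
  obtain ⟨s, hs, hslow⟩ := exists_pred hj
  have hsj : ¬ j ≤ s := not_le_of_gt hs
  have key : ∀ w : L, j ≤ w → ∃ x : L, s ≤ x ∧ ¬ j ≤ x ∧ x ⊔ j = w := by
    intro w
    induction w using WellFoundedLT.induction with
    | ind w ih =>
      intro hjw
      rcases eq_or_lt_of_le hjw with h | h
      · exact ⟨s, le_rfl, hsj, h ▸ sup_eq_right.2 hs.le⟩
      · obtain ⟨v, hv⟩ := (Set.toFinite {v : L | j ≤ v ∧ v < w}).exists_maximal ⟨j, le_rfl, h⟩
        obtain ⟨hjv, hvw⟩ : j ≤ v ∧ v < w := hv.prop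
        obtain ⟨x, hsx, hjx, hxj⟩ := ih v hvw hjv
        obtain ⟨p, hjp, hpw, hpv⟩ := hat v w hjv hvw
        obtain ⟨e, he, hej, hje, hemin⟩ := exists_lift hmax (JM_of_covBy hjp)
        have hlow := lift_low hjp hje hej hemin
        refine ⟨x ⊔ e, hsx.trans le_sup_left, ?_, ?_⟩
        · refine step (fun z hz => (hslow z (hlow z hz)).trans hsx) hjx ?_
          rw [hej, hxj]
          exact hpv
        · have h1 : x ⊔ e ⊔ j = v ⊔ p := by
            rw [← hxj, ← hej]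
            rw [sup_sup_sup_comm, sup_idem]
          rw [h1]
          by_contra hne
          have h2 : v ⊔ p < w := lt_of_le_of_ne (sup_le hvw.le hpw) hne
          exact hpv (le_sup_right.trans (hv.le_of_ge ⟨hjv.trans le_sup_left, h2⟩ le_sup_left))
  exact one_irr j hj (fun y hy => by
    obtain ⟨x, _, h2, h3⟩ := key y hy
    exact ⟨x, h2, h3⟩)

/-- `γ` a join-irreducible of `[j, 1]` which does not cover `j`, with `[γ, 1]` of length at most
two. -/
lemma short_gamma [IsUpperModularLattice L] [BoundedOrder L] {j γ : L} (hj : SupIrred j)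
    (hmax : ∀ k : L, SupIrred k → j ≤ k → k = j) (hγ : JM j γ) (hnc : ¬ j ⋖ γ)
    (hlen : ∀ y z : L, γ < y → y < z → z = ⊤) : Frk L := by
  classical
  -- a maximal one
  obtain ⟨g, hg⟩ := (Set.toFinite {t : L | JM j t ∧ γ ≤ t}).exists_maximal ⟨γ, hγ, le_rfl⟩
  obtain ⟨hgJ, hγg⟩ : JM j g ∧ γ ≤ g := hg.prop
  have hgmax : ∀ δ : L, JM j δ → g ≤ δ → δ = g := by
    intro δ hδ h
    exact le_antisymm (hg.le_of_ge ⟨hδ, hγg.trans h⟩ h) h
  have hglen : ∀ y z : L, g < y → y < z → z = ⊤ := by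
    intro y z h1 h2
    exact hlen y z (lt_of_le_of_lt hγg h1) h2
  obtain ⟨t, hjt, htγ⟩ : ∃ t : L, j < t ∧ t < γ := by
    rw [not_covBy_iff hγ.1] at hnc
    exact hnc
  have htg : t < g := lt_of_lt_of_le htγ hγg
  obtain ⟨p, hpJ, hpt, hpj, _⟩ := exists_JM_min hjt.le (le_refl j) (not_le_of_gt hjt)
  obtain ⟨e, he, hej, hje, _⟩ := exists_lift hmax hpJ
  obtain ⟨b, hb, hbj, hjb, _⟩ := exists_lift hmax hgJ
  have hpg : p < g := lt_of_le_of_lt hpt htg
  have hbp : ¬ b ≤ p := by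
    intro h
    have : g ≤ p := hbj ▸ sup_le h hpJ.1.le
    exact absurd hpg (not_lt_of_ge this)
  refine two_irr' b j hb hj ⊥ e he.ne_bot.symm bot_le ?_ ?_ ?_ ?_ hje ?_
  · rw [hbj]
    exact (le_sup_left.trans hej.le).trans hpg.le
  · intro h; exact hb.ne_bot (le_bot_iff.1 h)
  · intro h; exact hj.ne_bot (le_bot_iff.1 h)
  · intro h
    exact hbp (h.trans (le_sup_left.trans hej.le))
  · intro y hy hyt
    rw [hbj] at hy ⊢
    obtain ⟨δ, hδJ, hδy, hδg, _⟩ := exists_JM_min (hgJ.1.le.trans hy.le) hgJ.1.le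
      (not_le_of_gt hy)
    obtain ⟨d, hd, hdj, hjd, _⟩ := exists_lift hmax hδJ
    refine ⟨d, ?_, hjd, ?_⟩
    · intro h
      have h1 : g ≤ δ := by
        rw [← hbj, ← hdj]
        exact sup_le_sup_right h j
      exact hδg (hgmax δ hδJ h1).le
    · have h1 : d ⊔ g = δ ⊔ g := by
        rw [← hdj, sup_assoc, sup_eq_right.2 hgJ.1.le]
      rw [h1]
      have h2 : g < δ ⊔ g := lt_of_le_of_ne le_sup_right (fun h => hδg (h ▸ le_sup_left))
      by_contra hne
      have h3 : δ ⊔ g < y := lt_of_le_of_ne (sup_le hδy hy.le) hne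
      exact hyt.ne (hglen _ _ h2 h3)

end Pool.Agent.H15.Fr
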