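import Pool.Agent.H15.Fr.Gen

set_option autoImplicit false

/-!
# Frankl's inequality for upper semimodular lattices with a short interval above a join-irreducible

Let `j` be a join-irreducible of the finite upper semimodular lattice `L`, and `M = [j, 1]`.  If
every join-irreducible `d` of `M` which does not cover `j` has `[d, 1]` of length at most three,
then some join-irreducible `a` of `L` satisfies `2 |[a, 1]| ≤ |L|`.

For two join-irreducibles `b, c` the inequality `#{x : b ⊔ c ≤ x} ≤ #{x : ¬ b ≤ x, ¬ c ≤ x}` says
that `|[b, 1]| + |[c, 1]| ≤ |L|`, so it gives Frankl's inequality.  One may take `j` maximal among the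
join-irreducibles.  Let `F w = {x : ¬ j ≤ x, x ⊔ j = w}` for `w ∈ M`.  `F w` is not empty if `w` is a
join of elements covering `j`, or a join-irreducible of `M`.  So if `M` is atomistic then
`2 |M| ≤ |L|`.  Otherwise let `γ = j ⊔ b` be a join-irreducible of `M` which does not cover `j`
(`b` a join-irreducible of `L`); then `[γ, 1]` is mapped injectively into the elements above neither
`b` nor `j`, by `y ↦ x` with `x ⊔ γ = y`: `x` is a join-irreducible `d` of `L` with `d ⊔ j`
join-irreducible in `M`, or the join `d₁ ⊔ d₂` of two of them.  If such a join is above `j`, then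
`[d₁ ⊔ d₂, 1]` has length at most two and the pair `d₁, d₂` does it.
-/

namespace Pool.Agent.H15.Fr.ShortIntervals

open Pool.Agent.H15.Fr

lemma chain5 {L : Type*} [Lattice L] (a b c d e : L) (h1 : a < b) (h2 : b < c) (h3 : c < d)
    (h4 : d < e) : StrictMono ![a, b, c, d, e] := by
  rw [Fin.strictMono_iff_lt_succ]
  intro i
  fin_cases i <;> assumption

/-- **Frankl's inequality** for a finite upper semimodular lattice `L` with a join-irreducible `j`
such that `[d, 1]` has length at most three (no chain of five elements) for every join-irreducible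
`d` of the lattice `[j, 1]` which does not cover `j` (`g` is the element of `[j, 1]` covered
by `d`). -/
theorem result (L : Type*) [Lattice L] [BoundedOrder L] [Finite L] [IsUpperModularLattice L]
    (j : L) (hj : SupIrred j)
    (h : ∀ g d : L, j < g → g < d → (∀ t : L, j ≤ t → t < d → t ≤ g) →
      ∀ c : Fin 5 → L, StrictMono c → ¬ d ≤ c 0) :
    ∃ a : L, SupIrred a ∧ 2 * Nat.card {x : L // a ≤ x} ≤ Nat.card L := by
  classical
  have := Fintype.ofFinite L
  refine gen' hj ?_
  intro γ hγ hγc x y z w h1 h2 h3 h4
  obtain ⟨g, hjg, hgγ, hglow⟩ := exists_predM hγ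
  have hjg' : j < g := by
    refine lt_of_le_of_ne hjg ?_
    rintro rfl
    exact hγc ⟨hγ.1, fun t ht1 ht2 => absurd (hglow t ht1.le ht2) (not_le_of_gt ht1)⟩
  exact h g γ hjg' hgγ hglow _ (chain5 γ x y z w h1 h2 h3 h4) le_rfl

end Pool.Agent.H15.Fr.ShortIntervals
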