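import Pool.Agent.H15.Fr.Basic

set_option autoImplicit false

/-!
Two join-irreducibles `b, c` with `#{x : b ⊔ c ≤ x} ≤ #{x : b ≰ x, c ≰ x}` give Frankl's inequality
for one of them.
-/

namespace Pool.Agent.H15.Fr

open Finset

variable {L : Type*} [Lattice L] [Fintype L]

/-- Frankl's inequality for `L`. -/
def Frk (L : Type*) [Lattice L] : Prop :=
  ∃ a : L, SupIrred a ∧ 2 * Nat.card {x : L // a ≤ x} ≤ Nat.card L

open Classical in
lemma card_conv (a : L) : Nat.card {x : L // a ≤ x} =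
    (univ.filter (fun x : L => a ≤ x)).card := by
  rw [Nat.card_eq_fintype_card, Fintype.card_subtype]

lemma two_irr (b c : L) (hb : SupIrred b) (hc : SupIrred c) (f : L → L)
    (hf : ∀ y : L, b ⊔ c ≤ y → ¬ b ≤ f y ∧ ¬ c ≤ f y)
    (hinj : ∀ y z : L, b ⊔ c ≤ y → b ⊔ c ≤ z → f y = f z → y = z) : Frk L := by
  classical
  have h1 : (univ.filter (fun x : L => b ⊔ c ≤ x)).card ≤
      (univ.filter (fun x : L => ¬ b ≤ x ∧ ¬ c ≤ x)).card := by
    refine card_le_card_of_injOn f ?_ ?_
    · intro y hy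
      have hy' : b ⊔ c ≤ y := by simpa using hy
      simpa using hf y hy'
    · intro y hy z hz hyz
      have hy' : b ⊔ c ≤ y := by simpa using hy
      have hz' : b ⊔ c ≤ z := by simpa using hz
      exact hinj y z hy' hz' hyz
  have h2 : (univ.filter (fun x : L => b ≤ x ∧ c ≤ x)) =
      univ.filter (fun x : L => b ⊔ c ≤ x) := by
    ext x; simp
  have h3 : (univ.filter (fun x : L => b ≤ x)).card + (univ.filter (fun x : L => c ≤ x)).card
      = (univ.filter (fun x : L => b ≤ x ∨ c ≤ x)).card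
        + (univ.filter (fun x : L => b ≤ x ∧ c ≤ x)).card := by
    rw [filter_or, filter_and, card_union_add_card_inter]
  have h4 : (univ.filter (fun x : L => b ≤ x ∨ c ≤ x)).card
      + (univ.filter (fun x : L => ¬ b ≤ x ∧ ¬ c ≤ x)).card = Fintype.card L := by
    have h5 : (univ.filter (fun x : L => ¬ b ≤ x ∧ ¬ c ≤ x)) =
        univ.filter (fun x : L => ¬ (b ≤ x ∨ c ≤ x)) := by
      ext x; simp
    rw [h5, card_filter_add_card_filter_not, card_univ]
  rw [h2] at h3
  have h6 : (univ.filter (fun x : L => b ≤ x)).card + (univ.filter (fun x : L => c ≤ x)).card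
      ≤ Fintype.card L := by omega
  rcases le_total (univ.filter (fun x : L => b ≤ x)).card
    (univ.filter (fun x : L => c ≤ x)).card with h | h
  · refine ⟨b, hb, ?_⟩
    rw [card_conv, Nat.card_eq_fintype_card]
    omega
  · refine ⟨c, hc, ?_⟩
    rw [card_conv, Nat.card_eq_fintype_card]
    omega

/-- One join-irreducible, with a section of `x ↦ x ⊔ j`. -/
lemma one_irr (j : L) (hj : SupIrred j)
    (hf : ∀ y : L, j ≤ y → ∃ x : L, ¬ j ≤ x ∧ x ⊔ j = y) : Frk L := by
  classical
  choose f hf1 hf2 using hf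
  have h1 : (univ.filter (fun x : L => j ≤ x)).card ≤
      (univ.filter (fun x : L => ¬ j ≤ x)).card := by
    refine card_le_card_of_injOn (fun y => if h : j ≤ y then f y h else y) ?_ ?_
    · intro y hy
      have hy' : j ≤ y := by simpa using hy
      simp only [hy', dif_pos]
      simpa using hf1 y hy'
    · intro y hy z hz hyz
      have hy' : j ≤ y := by simpa using hy
      have hz' : j ≤ z := by simpa using hz
      simp only [hy', hz', dif_pos] at hyz
      rw [← hf2 y hy', ← hf2 z hz', hyz]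
  have h2 : (univ.filter (fun x : L => j ≤ x)).card
      + (univ.filter (fun x : L => ¬ j ≤ x)).card = Fintype.card L := by
    rw [card_filter_add_card_filter_not, card_univ]
  refine ⟨j, hj, ?_⟩
  rw [card_conv, Nat.card_eq_fintype_card]
  omega

/-- The form of `two_irr` used below. -/
lemma two_irr' [BoundedOrder L] (b c : L) (hb : SupIrred b) (hc : SupIrred c)
    (x0 x1 : L) (h01 : x0 ≠ x1) (hx0 : x0 ≤ b ⊔ c) (hx1 : x1 ≤ b ⊔ c)
    (hx0b : ¬ b ≤ x0) (hx0c : ¬ c ≤ x0) (hx1b : ¬ b ≤ x1) (hx1c : ¬ c ≤ x1)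
    (hf : ∀ y : L, b ⊔ c < y → y < ⊤ → ∃ x : L, ¬ b ≤ x ∧ ¬ c ≤ x ∧ x ⊔ (b ⊔ c) = y) :
    Frk L := by
  classical
  set w := b ⊔ c with hw
  choose f hf1 hf2 hf3 using hf
  have key : ∀ y : L, w ≤ y → y ≠ w → y ≠ ⊤ → w < y ∧ y < ⊤ := by
    intro y h1 h2 h3
    exact ⟨lt_of_le_of_ne h1 (Ne.symm h2), lt_of_le_of_ne le_top h3⟩
  let g : L → L := fun y => if y = w then x0 else if y = ⊤ then x1 else
    if h : w < y ∧ y < ⊤ then f y h.1 h.2 else y
  have g0 : ∀ y, y = w → g y = x0 := by
    intro y h; simp [g, h]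
  have g1 : ∀ y, y ≠ w → y = ⊤ → g y = x1 := by
    intro y h h'
    simp only [g]
    rw [if_neg h, if_pos h']
  have g2 : ∀ y (h : y ≠ w) (h' : y ≠ ⊤) (hwy : w ≤ y),
      g y = f y (key y hwy h h').1 (key y hwy h h').2 := by
    intro y h h' hwy
    simp only [g]
    rw [if_neg h, if_neg h', dif_pos (key y hwy h h')]
  refine two_irr b c hb hc g ?_ ?_
  · intro y hy
    by_cases h : y = w
    · rw [g0 y h]; exact ⟨hx0b, hx0c⟩
    by_cases h' : y = ⊤
    · rw [g1 y h h']; exact ⟨hx1b, hx1c⟩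
    · rw [g2 y h h' hy]
      exact ⟨hf1 y _ _, hf2 y _ _⟩
  · -- recover `y` from `g y`
    have r : ∀ y, w ≤ y → y ≠ w → y ≠ ⊤ → g y ⊔ w = y := by
      intro y hy h h'
      rw [g2 y h h' hy]
      exact hf3 y _ _
    have r0 : ∀ y, (y = w ∨ y = ⊤) → g y ⊔ w = w := by
      intro y h
      by_cases h1 : y = w
      · rw [g0 y h1]; exact sup_eq_right.2 hx0
      · rw [g1 y h1 (h.resolve_left h1)]; exact sup_eq_right.2 hx1
    intro y z hy hz hyz
    by_cases hy1 : y = w ∨ y = ⊤
    · by_cases hz1 : z = w ∨ z = ⊤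
      · by_cases h1 : y = w
        · by_cases h2 : z = w
          · rw [h1, h2]
          · rw [g0 y h1, g1 z h2 (hz1.resolve_left h2)] at hyz
            exact absurd hyz h01
        · by_cases h2 : z = w
          · rw [g0 z h2, g1 y h1 (hy1.resolve_left h1)] at hyz
            exact absurd hyz.symm h01
          · rw [hy1.resolve_left h1, hz1.resolve_left h2]
      · push Not at hz1
        have h1 := r0 y hy1
        rw [hyz, r z hz hz1.1 hz1.2] at h1
        exact absurd h1 hz1.1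
    · push Not at hy1
      by_cases hz1 : z = w ∨ z = ⊤
      · have h1 := r0 z hz1
        rw [← hyz, r y hy hy1.1 hy1.2] at h1
        exact absurd h1 hy1.1
      · push Not at hz1
        rw [← r y hy hy1.1 hy1.2, ← r z hz hz1.1 hz1.2, hyz]

end Pool.Agent.H15.Fr
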